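import Mathlib
import Pool.Agent.Lib.Pa5725d.Main

/-!
# Strongly asymptotically Toeplitz composition operators on `H²`

For an analytic selfmap `φ` of the unit disc, `C_φ` is strongly asymptotically Toeplitz if and
only if `φ` is the identity, or the angular derivative of `φ` is less than one in modulus at
almost every point of the unit circle at which `|φ| = 1`.
-/

set_option autoImplicit false

open Complex Metric MeasureTheory Filter Topology Set
open scoped Real ComplexConjugate ENNReal

namespace Pool.Agent.Results.MP_a5725d_an.SATCharacterization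

/-- The Hardy space `H²` of the unit disc, realised as the Hilbert space of square summable
sequences of Taylor coefficients: `‖f‖² = ∑ |f n|²`. -/
abbrev HardySpace : Type := lp (fun _ : ℕ => ℂ) 2

/-- Bounded linear operators on `H²`. -/
abbrev Operator : Type := HardySpace →L[ℂ] HardySpace

/-- The value `T f` of an operator `T` at `f`. -/
noncomputable def app (T : Operator) (f : HardySpace) : HardySpace := T f

/-- The inner product `⟨f, g⟩ = ∑ conj (f n) * g n` of `H²`. -/
noncomputable def innerProd (f g : HardySpace) : ℂ := ∑' n, conj (f n) * g n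

/-- `R` is the Hilbert space adjoint of `S`. -/
def IsAdjoint (S R : Operator) : Prop :=
  ∀ f g : HardySpace, innerProd (app R f) g = innerProd f (app S g)

/-- The value `f(z) = ∑ f_n z^n` of `f ∈ H²` at a point `z` of the unit disc. -/
noncomputable def value (f : HardySpace) (z : ℂ) : ℂ := ∑' n, f n * z ^ n

/-- `S` is the operator `M_z` of multiplication by `z` on `H²`. -/
def IsMulZ (S : Operator) : Prop :=
  ∀ (f : HardySpace) (z : ℂ), ‖z‖ < 1 → value (app S f) z = z * value f z

/-- `C` is the composition operator `C_φ f = f ∘ φ` on `H²`. -/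
def IsComposition (φ : ℂ → ℂ) (C : Operator) : Prop :=
  ∀ (f : HardySpace) (z : ℂ), ‖z‖ < 1 → value (app C f) z = value f (φ z)

/-- With `S = M_z` and `R = M_z^*` its adjoint: the operator `T` is strongly asymptotically
Toeplitz, that is, `M_z^{*n} T M_z^n` converges in the strong operator topology. -/
def IsSAT (S T : Operator) : Prop :=
  ∃ R : Operator, IsAdjoint S R ∧ ∃ A : Operator, ∀ f : HardySpace,
    Tendsto (fun n : ℕ => (app R)^[n] (app T ((app S)^[n] f))) atTop (𝓝 (app A f))

/-- The modulus of the angular derivative of `φ` at a point `ζ` of the unit circle, in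
`[0, ∞]`: the quantity `liminf_{z → ζ} (1 - |φ z|) / (1 - |z|)` of the Julia-Caratheodory
theorem. -/
noncomputable def angularDerivative (φ : ℂ → ℂ) (ζ : ℂ) : ℝ≥0∞ :=
  liminf (fun z => ENNReal.ofReal ((1 - ‖φ z‖) / (1 - ‖z‖))) (𝓝[ball 0 1] ζ)

/-- `φ` has a radial limit of modulus one at the point `e^{iθ}`. -/
def UnimodularAt (φ : ℂ → ℂ) (θ : ℝ) : Prop :=
  ∃ w : ℂ, ‖w‖ = 1 ∧ Tendsto (fun r : ℝ => φ (r * cexp (θ * I))) (𝓝[<] 1) (𝓝 w)

lemma app_iterate (T : Operator) (n : ℕ) (f : HardySpace) : (app T)^[n] f = (T ^ n) f := by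
  induction n with
  | zero => simp
  | succ n ih =>
    rw [Function.iterate_succ_apply', ih, pow_succ']
    rfl

lemma innerProd_eq (f g : HardySpace) : innerProd f g = inner ℂ f g := by
  rw [lp.inner_eq_tsum]
  unfold innerProd
  refine tsum_congr (fun n => ?_)
  simp [mul_comm]

lemma isAdjoint_iff (S R : Operator) :
    IsAdjoint S R ↔ R = ContinuousLinearMap.adjoint S := by
  unfold IsAdjoint
  simp only [innerProd_eq]
  rw [ContinuousLinearMap.eq_adjoint_iff]
  rfl

lemma isSAT_iff_pow (T : Operator) :
    IsSAT Pool.Agent.Pa5725d.Mz T ↔ Pool.Agent.Pa5725d.IsSAT T := by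
  unfold IsSAT Pool.Agent.Pa5725d.IsSAT
  simp only [isAdjoint_iff, exists_eq_left]
  refine exists_congr (fun A => forall_congr' (fun f => ?_))
  have : (fun n : ℕ => (app (ContinuousLinearMap.adjoint Pool.Agent.Pa5725d.Mz))^[n]
      (app T ((app Pool.Agent.Pa5725d.Mz)^[n] f))) =
      fun n => Pool.Agent.Pa5725d.Tn T n f := by
    funext n
    rw [app_iterate, app_iterate]
    rfl
  rw [this]
  rfl

/-- **Characterisation of the strongly asymptotically Toeplitz composition operators on `H²`.**
The operator `M_z` exists and is unique; for every analytic selfmap `φ` of the disc the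
composition operator `C_φ` exists and is unique, and it is strongly asymptotically Toeplitz if and
only if either `φ` is the identity or, for almost every point `e^{iθ}` of the circle at which `φ`
has a radial limit of modulus one, the angular derivative of `φ` at `e^{iθ}` is `< 1`. -/
theorem result :
    (∃! S : Operator, IsMulZ S) ∧
    ∀ φ : ℂ → ℂ, DifferentiableOn ℂ φ (ball 0 1) → MapsTo φ (ball 0 1) (ball 0 1) →
      (∃! C : Operator, IsComposition φ C) ∧
      ∀ S C : Operator, IsMulZ S → IsComposition φ C →
        (IsSAT S C ↔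
          (∀ z ∈ ball (0 : ℂ) 1, φ z = z) ∨
          ∀ᵐ (θ : ℝ) ∂(volume.restrict (Ioc 0 (2 * π))),
            UnimodularAt φ θ → angularDerivative φ (cexp (θ * I)) < 1) := by
  have hS : IsMulZ Pool.Agent.Pa5725d.Mz := fun f z hz => Pool.Agent.Pa5725d.ev_Mz f hz
  have hSu : ∀ S : Operator, IsMulZ S → S = Pool.Agent.Pa5725d.Mz := by
    intro S h
    ext1 f
    refine Pool.Agent.Pa5725d.ev_injective (fun z hz => ?_)
    exact (h f z hz).trans (hS f z hz).symm
  refine ⟨⟨_, hS, hSu⟩, fun φ hφ hmaps => ?_⟩
  obtain ⟨C₀, hC₀⟩ := Pool.Agent.Pa5725d.exists_compOp hφ hmaps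
  refine ⟨⟨C₀, hC₀, fun C hC => ?_⟩, fun S C hS' hC => ?_⟩
  · ext1 f
    refine Pool.Agent.Pa5725d.ev_injective (fun z hz => ?_)
    exact (hC f z hz).trans (hC₀ f z hz).symm
  · rw [hSu S hS', isSAT_iff_pow]
    exact Pool.Agent.Pa5725d.isSAT_iff hφ hmaps hC

end Pool.Agent.Results.MP_a5725d_an.SATCharacterization
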